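import Mathlib
import Pool.Agent.H917R3.DO.Fin
import Pool.Agent.H917R3.DO.Some
import Pool.Agent.H80R3.SO.IN

/-!
# A sequential commutation orbit generates a II_1 factor iff it is dense in the Haar unitaries

`N` is a II_1 factor of operators on a Hilbert space (any density character) with trace `t`; `n2 t`
is the 2-norm; `U` is a nonprincipal ultrafilter on the natural numbers.
-/

set_option autoImplicit false

open scoped ComplexOrder Topology
open Filter

noncomputable section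

namespace Pool.Agent.Results.MP_b78e92_an.GeneratesIffDense

open Pool.Agent.H467F (n2 Cl)
open Pool.Agent.H80R3.SO Pool.Agent.H917R3.DO
open Pool.Agent.Helper278 (Elt IsIIOneFactor)

/-- `W*(S) = N`: the star algebra generated by `S` is dense in `N` in the 2-norm. -/
def Generates {A : Type} [CStarAlgebra A] (τ : A →ₗ[ℂ] ℂ) (S : Set (unitary A)) : Prop :=
  ∀ x : A, ∀ ε : ℝ, 0 < ε →
    ∃ y ∈ StarAlgebra.adjoin ℂ ((fun v : unitary A => (v : A)) '' S), n2 τ (x - y) < ε

/-- `S` is dense in the set of the Haar unitaries in the 2-norm. -/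
def DenseInHaar {A : Type} [CStarAlgebra A] (τ : A →ₗ[ℂ] ℂ) (S : Set (unitary A)) : Prop :=
  ∀ v : unitary A, Haar τ v → ∀ ε : ℝ, 0 < ε → ∃ w ∈ S, n2 τ ((v : A) - w) < ε

/-- `S` is dense in some nonempty open subset of the set of the Haar unitaries (2-norm), that is, `S`
is not nowhere dense there. -/
def SomewhereDense {A : Type} [CStarAlgebra A] (τ : A →ₗ[ℂ] ℂ) (S : Set (unitary A)) : Prop :=
  ∃ v₀ : unitary A, Haar τ v₀ ∧ ∃ ρ : ℝ, 0 < ρ ∧ ∀ v : unitary A, Haar τ v →
    n2 τ ((v : A) - v₀) < ρ → ∀ ε : ℝ, 0 < ε → ∃ w ∈ S, n2 τ ((v : A) - w) < ε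

/-- The group of the unitaries `g` with `g S g* = S`. -/
def Stab {A : Type} [CStarAlgebra A] (S : Set (unitary A)) : Set (unitary A) :=
  {g | ∀ v : unitary A, v ∈ S ↔ g * v * star g ∈ S}

/-- `G` is dense in the unitary group in the 2-norm. -/
def DenseInUnitary {A : Type} [CStarAlgebra A] (τ : A →ₗ[ℂ] ℂ) (G : Set (unitary A)) : Prop :=
  ∀ g : unitary A, ∀ ε : ℝ, 0 < ε → ∃ k ∈ G, n2 τ ((g : A) - k) < ε

/-- **Theorem.** Let `O` be a sequential commutation orbit of a II_1 factor `N`. Then `W*(O) = N` iff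
`O` is 2-norm dense in the set of all Haar unitaries of `N`, iff `O` is not nowhere dense in it, iff
the stabiliser of `O` in the unitary group of `N` is 2-norm dense. -/
theorem result (H : Type) [NormedAddCommGroup H] [InnerProductSpace ℂ H] [CompleteSpace H]
    (N : VonNeumannAlgebra H) (t : Elt N →ₗ[ℂ] ℂ) (hN : IsIIOneFactor N (t : Elt N → ℂ))
    (U : Ultrafilter ℕ) (hU : ∀ n, {n} ∉ U) (u : unitary (Elt N)) (hu : Haar t u) :
    List.TFAE [Generates t (orbit t U u), DenseInHaar t (orbit t U u),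
      SomewhereDense t (orbit t U u), DenseInUnitary t (Stab (orbit t U u))] := by
  have hF : Fac t := p_IN H N t hN
  have h := hF.tw
  have hO := orbit_eq_Ob h hU hu
  tfae_have 1 → 4 := by
    intro hg g ε hε
    have hgen : ∀ x : Elt N, x ∈ Cl t (StarAlgebra.adjoin ℂ
        ((fun v : unitary (Elt N) => (v : Elt N)) '' {v | Ob t u v}) : Set (Elt N)) := by
      rw [← hO]
      exact hg
    obtain ⟨k, ⟨m, hm⟩, hgk⟩ := Gs_dense hF hu hgen g ε hε
    refine ⟨k, ?_, hgk⟩
    intro v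
    rw [hO]
    exact stab_of h hu hm v
  tfae_have 4 → 2 := by
    intro hG v hv ε hε
    obtain ⟨k, hk, hvk⟩ := dense_of_dense hF hu (Stab (orbit t U u)) hG v hv ε hε
    refine ⟨_, (hk u).1 ?_, hvk⟩
    rw [hO]
    exact ⟨hu, 0, R_comm rfl⟩
  tfae_have 2 → 3 := by
    intro hD
    exact ⟨u, hu, 1, one_pos, fun v hv _ => hD v hv⟩
  tfae_have 3 → 1 := by
    rintro ⟨v₀, hv₀, ρ, hρ, hD⟩ x
    refine gen_of_somewhere h ?_ (orbit t U u) v₀ hv₀ ρ hρ hD x
    intro z hz
    obtain ⟨c, hc⟩ := hN.center (z : H →L[ℂ] H) z.2 (fun x hx => by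
      have := hz ⟨x, hx⟩
      exact congrArg (fun y : Elt N => (y : H →L[ℂ] H)) this)
    exact ⟨c, Subtype.ext hc⟩
  tfae_finish

end Pool.Agent.Results.MP_b78e92_an.GeneratesIffDense
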