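import Mathlib
import Pool.Agent.H917R3.DO.Inv
import Pool.Agent.H917R3.DO.Int
import Pool.Agent.H80R3.SO.IN

/-!
# When is a sequential commutation orbit of a II_1 factor the only one?

`N` is a II_1 factor of operators on a Hilbert space (any density character) with trace `t`; `n2 t`
is the 2-norm; `U` is a nonprincipal ultrafilter on the natural numbers.
-/

set_option autoImplicit false

open scoped ComplexOrder Topology
open Filter

noncomputable section

namespace Pool.Agent.Results.MP_b78e92_an.OnlyOrbit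

open Pool.Agent.H467F (n2 Cl)
open Pool.Agent.H80R3.SO Pool.Agent.H917R3.DO
open Pool.Agent.Helper278 (Elt IsIIOneFactor)

/-- `W*(S) = N`: the star algebra generated by `S` is dense in `N` in the 2-norm. -/
def Generates {A : Type} [CStarAlgebra A] (τ : A →ₗ[ℂ] ℂ) (S : Set (unitary A)) : Prop :=
  ∀ x : A, ∀ ε : ℝ, 0 < ε →
    ∃ y ∈ StarAlgebra.adjoin ℂ ((fun v : unitary A => (v : A)) '' S), n2 τ (x - y) < ε

/-- The orbit of `u` has finite diameter: the chains from `u` can be chosen of bounded length. -/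
def FiniteDiameter {A : Type} [CStarAlgebra A] (τ : A →ₗ[ℂ] ℂ) (U : Ultrafilter ℕ)
    (u : unitary A) : Prop :=
  ∃ K : ℕ, ∀ v ∈ orbit τ U u, ∃ n : ℕ, 1 ≤ n ∧ n ≤ K ∧ Chain τ U n u v

/-- The orbit of `u` generates and has finite diameter. -/
def GeneratesFinitely {A : Type} [CStarAlgebra A] (τ : A →ₗ[ℂ] ℂ) (U : Ultrafilter ℕ)
    (u : unitary A) : Prop :=
  Generates τ (orbit τ U u) ∧ FiniteDiameter τ U u

/-- `S` contains all Haar unitaries. -/
def HasAllHaar {A : Type} [CStarAlgebra A] (τ : A →ₗ[ℂ] ℂ) (S : Set (unitary A)) : Prop :=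
  ∀ v : unitary A, Haar τ v → v ∈ S

/-- `S` is invariant under the conjugation by all unitaries. -/
def ConjInvariant {A : Type} [CStarAlgebra A] (S : Set (unitary A)) : Prop :=
  ∀ g : unitary A, ∀ v ∈ S, g * v * star g ∈ S

/-- `S` has nonempty interior in the set of the Haar unitaries (2-norm). -/
def HasInterior {A : Type} [CStarAlgebra A] (τ : A →ₗ[ℂ] ℂ) (S : Set (unitary A)) : Prop :=
  ∃ v₀ : unitary A, Haar τ v₀ ∧ ∃ ρ : ℝ, 0 < ρ ∧ ∀ v : unitary A, Haar τ v →
    n2 τ ((v : A) - v₀) < ρ → v ∈ S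

/-- **Theorem.** Let `O` be a sequential commutation orbit of a II_1 factor `N`. Then `O` is the only
orbit iff `O` is invariant under the conjugation by all unitaries of `N`, iff `W*(O) = N` and `O` has
finite diameter, iff `O` has nonempty interior in the set of all Haar unitaries. -/
theorem result (H : Type) [NormedAddCommGroup H] [InnerProductSpace ℂ H] [CompleteSpace H]
    (N : VonNeumannAlgebra H) (t : Elt N →ₗ[ℂ] ℂ) (hN : IsIIOneFactor N (t : Elt N → ℂ))
    (U : Ultrafilter ℕ) (hU : ∀ n, {n} ∉ U) (u : unitary (Elt N)) (hu : Haar t u) :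
    List.TFAE [HasAllHaar t (orbit t U u), ConjInvariant (orbit t U u),
      GeneratesFinitely t U u, HasInterior t (orbit t U u)] := by
  have hF : Fac t := p_IN H N t hN
  have h := hF.tw
  have hO := orbit_eq_Ob h hU hu
  have huO : u ∈ orbit t U u := by
    rw [hO]
    exact ⟨hu, 0, R_comm rfl⟩
  tfae_have 1 → 2 := by
    intro h1 g v hv
    exact h1 _ (haar_conj h hv.1 g)
  tfae_have 2 → 3 := by
    intro h2
    have hinv : ∀ g : unitary (Elt N), ∃ m, R t m u (g * u * star g) := by
      intro g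
      have := h2 g u huO
      rw [hO] at this
      exact this.2
    obtain ⟨M, hM⟩ := inv_all hF hu hinv
    refine ⟨?_, M + 1, ?_⟩
    · intro x
      refine gen_of_dense h ?_ hu (orbit t U u) ?_ x
      · intro z hz
        obtain ⟨c, hc⟩ := hN.center (z : H →L[ℂ] H) z.2 (fun x hx => by
          have := hz ⟨x, hx⟩
          exact congrArg (fun y : Elt N => (y : H →L[ℂ] H)) this)
        exact ⟨c, Subtype.ext hc⟩
      · intro v hv ε hε
        refine ⟨v, ?_, by rw [sub_self, Pool.Agent.H467F.n2_zero]; exact hε⟩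
        rw [hO]
        exact ⟨hv, M, hM v hv⟩
    · intro v hv
      exact ⟨M + 1, by omega, le_rfl, (p_CH _ t h U hU (M + 1) u v).2
        (p_TR4 _ t h M (M + 1) u v hu (hM v hv.1) (by omega))⟩
  tfae_have 3 → 1 := by
    rintro ⟨hg, K, hK⟩ v hv
    have hgen : ∀ x : Elt N, x ∈ Cl t (StarAlgebra.adjoin ℂ
        ((fun v : unitary (Elt N) => (v : Elt N)) '' {v | Ob t u v}) : Set (Elt N)) := by
      rw [← hO]
      exact hg
    have h3 := Ob_all hF hu hgen K (fun w hw => by
      have hw' : w ∈ orbit t U u := by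
        rw [hO]; exact hw
      obtain ⟨n, -, hn, hc⟩ := hK w hw'
      exact p_TR4 _ t h n K u w hu ((p_CH _ t h U hU n u w).1 hc) hn) v hv
    rw [hO]
    exact ⟨hv, K, h3⟩
  tfae_have 1 → 4 := by
    intro h1
    exact ⟨u, hu, 1, one_pos, fun v hv _ => h1 v hv⟩
  tfae_have 4 → 2 := by
    rintro ⟨v₀, hv₀, ρ, hρ, hI⟩ g v hv
    rw [hO] at hv ⊢
    obtain ⟨m, hm⟩ := inv_of_interior hF (fun z hz => by
      obtain ⟨c, hc⟩ := hN.center (z : H →L[ℂ] H) z.2 (fun x hx => by
        have := hz ⟨x, hx⟩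
        exact congrArg (fun y : Elt N => (y : H →L[ℂ] H)) this)
      exact ⟨c, Subtype.ext hc⟩) hu v₀ hv₀ ρ hρ (fun w hw hwv => by
        have := hI w hw hwv
        rw [hO] at this
        exact this) g
    exact (stab_of h hu hm v).1 hv
  tfae_finish

end Pool.Agent.Results.MP_b78e92_an.OnlyOrbit
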