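import Mathlib
import Pool.Agent.H917R3.DO.Gen
import Pool.Agent.H80R3.SO.IN

/-!
# The stabiliser of a sequential commutation orbit

`N` is a II_1 factor of operators on a Hilbert space (any density character) with trace `t`; `n2 t`
is the 2-norm; `U` is a nonprincipal ultrafilter on the natural numbers.
-/

set_option autoImplicit false

open scoped ComplexOrder Topology
open Filter

noncomputable section

namespace Pool.Agent.Results.MP_b78e92_an.OrbitStabiliser

open Pool.Agent.H467F (n2 Cl)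
open Pool.Agent.H80R3.SO Pool.Agent.H917R3.DO
open Pool.Agent.Helper278 (Elt IsIIOneFactor)

/-- `W*(S)`: the 2-norm closure in `N` of the star algebra generated by `S`. -/
def WStar {A : Type} [CStarAlgebra A] (τ : A →ₗ[ℂ] ℂ) (S : Set (unitary A)) : Set A :=
  {x | ∀ ε : ℝ, 0 < ε →
    ∃ y ∈ StarAlgebra.adjoin ℂ ((fun v : unitary A => (v : A)) '' S), n2 τ (x - y) < ε}

/-- The group of the unitaries `g` with `g S g* = S`. -/
def Stab {A : Type} [CStarAlgebra A] (S : Set (unitary A)) : Set (unitary A) :=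
  {g | ∀ v : unitary A, v ∈ S ↔ g * v * star g ∈ S}

/-- `x` is in the 2-norm closure of `G`. -/
def InClosure {A : Type} [CStarAlgebra A] (τ : A →ₗ[ℂ] ℂ) (G : Set (unitary A)) (x : A) : Prop :=
  ∀ ε : ℝ, 0 < ε → ∃ k ∈ G, n2 τ (x - k) < ε

/-- **Theorem.** Let `O` be a sequential commutation orbit of a II_1 factor `N`. For every
self-adjoint `x` in `W*(O)` the unitary `exp(i x)` is a 2-norm limit of unitaries `g` of `N` with
`g O g* = O`. -/
theorem result (H : Type) [NormedAddCommGroup H] [InnerProductSpace ℂ H] [CompleteSpace H]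
    (N : VonNeumannAlgebra H) (t : Elt N →ₗ[ℂ] ℂ) (hN : IsIIOneFactor N (t : Elt N → ℂ))
    (U : Ultrafilter ℕ) (hU : ∀ n, {n} ∉ U) (u : unitary (Elt N)) (hu : Haar t u)
    (x : Elt N) (hx : IsSelfAdjoint x) (hxO : x ∈ WStar t (orbit t U u)) :
    InClosure t (Stab (orbit t U u)) (NormedSpace.exp (Complex.I • x)) := by
  have hF : Fac t := p_IN H N t hN
  have h := hF.tw
  have hO := orbit_eq_Ob h hU hu
  intro ε hε
  have hgen : x ∈ Cl t (StarAlgebra.adjoin ℂ
      ((fun v : unitary (Elt N) => (v : Elt N)) '' {v | Ob t u v}) : Set (Elt N)) := by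
    rw [← hO]
    exact hxO
  obtain ⟨k, ⟨g, rfl, m, hm⟩, hk⟩ := exp_mem h (gp_Gs h hu) (sp_Gs h hu)
    ⟨_, u, ⟨hu, 0, R_comm rfl⟩, rfl⟩ x hx hgen ε hε
  refine ⟨g, ?_, hk⟩
  intro v
  rw [hO]
  exact stab_of h hu hm v

end Pool.Agent.Results.MP_b78e92_an.OrbitStabiliser
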